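import Pool.Agent.U37.AF.Main

/-!
# In an abelian affine difference set of non-prime-power order Pascal's theorem fails very often

Let `D` be an affine difference set of order `n` in the abelian group `G` relative to `N`, and let
`∞` be one further element (`none` below). For `x` with `x⁻¹ ∉ D` and `a ∈ D ∪ {∞}` there is exactly
one `c ∈ D ∪ {∞}` with `Rel N D x a c`: for `a, c ∈ D` this means `x a c ∈ D`, and `∞` is related to
the `a ∈ D` with `x a ∈ N` (to itself if there is no such `a`). So `a ↦ c` is an involution `σ x` of
`D ∪ {∞}`. For Bose's difference sets (the elements of trace `1` of the field with `q ^ 2` elements)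
one has `(σ z σ y σ x) ^ 2 = 1` for all `x, y, z` in a common translate of `D`: the elements `d⁻¹`,
`d ∈ D`, and the special point `0` are the points of a conic, and the equation is Pascal's theorem.

**Theorem.** Let `n ≥ 10 ^ 6` and suppose that `n` is not a prime power. Then `(σ z σ y σ x) ^ 2 ≠ 1` for
at least `n ^ 5 / 200000` triples `(x, y, z)` of elements of a common translate of `D`, that is, for a
positive proportion of all such triples.

Proof. The theorem behind `MP_502c58_co.PascalGap` (helper671, `U671/PG`) on ovals of projective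
planes, applied to the plane of `D` (its points are the elements of `G`, a special point and the
cosets of `N` as points at infinity) and to the oval of the inverses of `D` and the special point. At
most `(n + 1) ^ 2 (4 n ^ 2 + 3 n)` collinear triples are not in a common translate of `D`.
-/

set_option autoImplicit false

namespace Pool.Agent.Results.MP_4b9833_co.PascalInAffineSets

/-- `D` is an affine difference set of order `n` in the abelian group `G` relative to `N`: `G` has
`n ^ 2 - 1` elements, `N` has `n - 1` elements, `D` has `n` elements, every `g` not in `N` is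
`t.1 / t.2` for exactly one pair `t` of elements of `D`, and `s / t` is not in `N` for different
`s, t` in `D`. -/
def Affine {G : Type} [CommGroup G] [Fintype G] (n : ℕ) (N : Subgroup G) (D : Finset G) : Prop :=
  Fintype.card G + 1 = n ^ 2 ∧ Nat.card N + 1 = n ∧ D.card = n ∧
    (∀ g : G, g ∉ N → ∃! t : G × G, t.1 ∈ D ∧ t.2 ∈ D ∧ t.1 / t.2 = g) ∧
    ∀ s ∈ D, ∀ t ∈ D, s ≠ t → s / t ∉ N

/-- The relation on `D` and one further element `none` given by `x`: `a, c` in `D` are related if
`x a c ∈ D`, `a` in `D` and `none` are related if `x a ∈ N`, and `none` is related to itself if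
`x d ∉ N` for all `d` in `D`. -/
def Rel {G : Type} [CommGroup G] (N : Subgroup G) (D : Finset G) (x : G) :
    Option G → Option G → Prop
  | some a, some c => x * a * c ∈ D
  | some a, none => x * a ∈ N
  | none, some c => x * c ∈ N
  | none, none => ∀ d ∈ D, x * d ∉ N

/-- `x, y, z` are in a common translate of `D`, their inverses are not in `D`, and there are
`a 0, ..., a 6` in `D` with `none` added, such that `a 0, a 1` and `a 3, a 4` are related for `x`,
`a 1, a 2` and `a 4, a 5` for `y`, `a 2, a 3` and `a 5, a 6` for `z`, and `a 6 ≠ a 0`. -/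
def HexFails {G : Type} [CommGroup G] (N : Subgroup G) (D : Finset G) (x y z : G) : Prop :=
  x⁻¹ ∉ D ∧ y⁻¹ ∉ D ∧ z⁻¹ ∉ D ∧ (∃ g, x * g ∈ D ∧ y * g ∈ D ∧ z * g ∈ D) ∧
    ∃ a : Fin 7 → Option G, (∀ i, ∀ d, a i = some d → d ∈ D) ∧ Rel N D x (a 0) (a 1) ∧
      Rel N D y (a 1) (a 2) ∧ Rel N D z (a 2) (a 3) ∧ Rel N D x (a 3) (a 4) ∧
      Rel N D y (a 4) (a 5) ∧ Rel N D z (a 5) (a 6) ∧ a 6 ≠ a 0

theorem rel_iff {G : Type} [CommGroup G] {N : Subgroup G} {D : Finset G} {x : G}
    {a c : Option G} : Pool.Agent.U37.AF.Rel N D x a c ↔ Rel N D x a c := by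
  cases a <;> cases c <;> rfl

/-- Let `D` be an affine difference set of order `n ≥ 10 ^ 6` in an abelian group relative to `N`,
where `n` is not a prime power. Then there are at least `n ^ 5 / 200000` failures of Pascal's theorem
in `D`. -/
theorem result (n : ℕ) (hn : 10 ^ 6 ≤ n) (hnp : ¬ IsPrimePow n) (G : Type) [CommGroup G]
    [Fintype G] (N : Subgroup G) (D : Finset G) (hD : Affine n N D) :
    n ^ 5 ≤ 200000 * {t : G × G × G | HexFails N D t.1 t.2.1 t.2.2}.ncard := by
  refine (Pool.Agent.U37.AF.main hD (by simpa using hn) hnp).trans ?_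
  apply Nat.mul_le_mul_left
  apply Set.ncard_le_ncard ?_ (Set.toFinite _)
  rintro t ⟨h1, h2, h3, h4, a, h5, h6⟩
  simp only [rel_iff] at h6
  exact ⟨h1, h2, h3, h4, a, h5, h6⟩

end Pool.Agent.Results.MP_4b9833_co.PascalInAffineSets
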